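import Pool.Agent.X201.FJ.TreeComm

/-!
# Groups acting on trees and abstract commensurators

`C` is any class of groups with the closure properties `ClosedE C`, all of which are known for the
class of the groups that satisfy the Farrell–Jones conjecture for A-theory (with coefficients and finite
wreath products).

`AbsComm K` is the abstract commensurator of the group `K`: the isomorphisms between subgroups of finite
index of `K`, two of them being identified if they agree on a subgroup of finite index, with the
composition. `Commensurated K` says that `K ∩ g⁻¹ K g` has finite index in `K` for all `g` in the ambient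
group `Γ`; conjugation then gives the homomorphism `commMap : Γ →* AbsComm K`.
-/

set_option autoImplicit false

namespace Pool.Agent.Results.MP_63c928_gt.CommensurableTrees

open Pool.Agent.Y110.FJ Pool.Agent.X201.FJ

/-- Let `C` be a class of groups with the closure properties `ClosedE C`. Let `Γ` act without
inversions on a tree `T` such that the stabilizer of an edge has finite index in the stabilizers of
its endpoints (e.g. if `T` is locally finite), and such that no nontrivial element of a vertex
stabilizer `Γ_u` centralizes a subgroup of finite index of `Γ_u`. Let `r` be a vertex. Then the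
stabilizer of `r` is commensurated, and if the image of `Γ` in its abstract commensurator is in `C`,
then `Γ` is in `C`. -/
theorem result (C : ∀ (G : Type) [Group G], Prop) (hC : ClosedE C) (Γ V : Type) [Group Γ]
    [MulAction Γ V] (T : SimpleGraph V) (hT : T.IsTree)
    (hadj : ∀ (g : Γ) (u v : V), T.Adj u v → T.Adj (g • u) (g • v))
    (hinv : ∀ (g : Γ) (u : V), T.Adj u (g • u) → g • g • u ≠ u)
    (hidx : ∀ u v : V, T.Adj u v →
      (MulAction.stabilizer Γ v).relIndex (MulAction.stabilizer Γ u) ≠ 0)
    (hcen : ∀ (u : V) (g : Γ), g • u = u → (∃ A : Subgroup Γ, A ≤ MulAction.stabilizer Γ u ∧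
      A.relIndex (MulAction.stabilizer Γ u) ≠ 0 ∧ ∀ a ∈ A, g * a = a * g) → g = 1) (r : V) :
    ∃ hK : Commensurated (MulAction.stabilizer Γ r), C (commMap hK).range → C Γ :=
  ⟨stab_comm hT.connected hidx r, fun h => tree_comm hC hT hadj hinv hidx hcen r h⟩

/-- In particular `Γ` is in `C` if the abstract commensurator of a vertex stabilizer is in `C`. -/
theorem of_absComm (C : ∀ (G : Type) [Group G], Prop) (hC : ClosedE C) (Γ V : Type) [Group Γ]
    [MulAction Γ V] (T : SimpleGraph V) (hT : T.IsTree)
    (hadj : ∀ (g : Γ) (u v : V), T.Adj u v → T.Adj (g • u) (g • v))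
    (hinv : ∀ (g : Γ) (u : V), T.Adj u (g • u) → g • g • u ≠ u)
    (hidx : ∀ u v : V, T.Adj u v →
      (MulAction.stabilizer Γ v).relIndex (MulAction.stabilizer Γ u) ≠ 0)
    (hcen : ∀ (u : V) (g : Γ), g • u = u → (∃ A : Subgroup Γ, A ≤ MulAction.stabilizer Γ u ∧
      A.relIndex (MulAction.stabilizer Γ u) ≠ 0 ∧ ∀ a ∈ A, g * a = a * g) → g = 1) (r : V)
    (h : C (AbsComm (MulAction.stabilizer Γ r))) : C Γ := by
  obtain ⟨hK, hr⟩ := result C hC Γ V T hT hadj hinv hidx hcen r
  exact hr (hC.base.of_injective _ _ (commMap hK).range.subtype
    (commMap hK).range.subtype_injective h)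

end Pool.Agent.Results.MP_63c928_gt.CommensurableTrees
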