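import Pool.Agent.X176.FJ.Clique

/-!
# Quotients of free products by local relations

`C` is any class of groups with the closure properties `ClosedE C`, all of which are known for the
class of the groups that satisfy the A-theoretic Farrell–Jones conjecture with coefficients and finite
wreath products.

(1) `N` is a group with endomorphisms `e_S`, `S ⊆ V`, such that `e_S e_T = e_{S ∩ T}` and each element is
fixed by `e_S` for some finite `S`; `Lk` is a relation on `V` such that for all `u ≠ v` which are not
linked by `Lk` the group `N` is the amalgamated product of the images of `e_{V - u}` and `e_{V - v}` over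
the image of `e_{V - {u, v}}`. If the image of `e_S` is in `C` for all finite sets `S` of pairwise linked
indices, then `N` is in `C`.

(2) For instance, let `N` be the quotient of the free product of groups `P v`, `v ∈ V`, by a set `R` of
local relations: each relation is, by each of the projections which kill the factors outside of a
subset of `V`, either preserved or made trivial. Two indices are linked if some relation involves
both. This includes graph products of groups and even Artin groups (`P v = ℤ`, relations
`(a b)^m = (b a)^m`).
-/

set_option autoImplicit false

namespace Pool.Agent.Results.MP_63c928_gt.LocalPresentations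

open Pool.Agent.Y110.FJ Pool.Agent.X176.FJ
open Pool.Agent.Y110.KW (Quo IsLocal Linked ret)
open Monoid

/-- Let `C` be a class of groups with the closure properties `ClosedE C`.

(1) A group `N` with a system of retractions `e_S`, `S ⊆ V`, which is an amalgamated product for each
pair of indices which are not linked, is in `C` if the images of the `e_S` are in `C` for the finite
sets `S` of pairwise linked indices.

(2) The quotient of a free product by a set of local relations is in `C` if and only if the parabolic
subgroups for the finite sets of pairwise linked indices are in `C`. -/
theorem result (C : ∀ (G : Type) [Group G], Prop) (hC : ClosedE C) :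
    (∀ (N V : Type) [Group N] (e : Set V → (N →* N)),
      (∀ (S T : Set V) (n : N), e S (e T n) = e (S ∩ T) n) →
      (∀ n : N, ∃ S : Set V, S.Finite ∧ e S n = n) → ∀ Lk : V → V → Prop,
      (∀ u v, u ≠ v → ¬ Lk u v →
        Amg (e {u}ᶜ).range (e {v}ᶜ).range (e ({u}ᶜ ∩ {v}ᶜ)).range) →
      (∀ S : Set V, S.Finite → (∀ u ∈ S, ∀ v ∈ S, u ≠ v → Lk u v) → C (e S).range) → C N) ∧
    (∀ (V : Type) (P : V → Type) [∀ v, Group (P v)] (R : Set (CoprodI P)) (hR : IsLocal R),
      C (Quo R) ↔ ∀ S : Set V, S.Finite → (∀ u ∈ S, ∀ v ∈ S, u ≠ v → Linked R u v) →
        C (ret hR S).range) :=
  ⟨fun _ _ _ e hi hf Lk hAmg hcl => clique e hC hi hf Lk hAmg hcl,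
    fun _ _ _ _ hR => ⟨fun h S _ _ => hC.base.of_injective _ _ (ret hR S).range.subtype
      (ret hR S).range.subtype_injective h, fun h => loc_quo hC hR h⟩⟩

end Pool.Agent.Results.MP_63c928_gt.LocalPresentations
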