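import Pool.Agent.X176.FJ.LettM

/-!
# Free products with a free group and triangular transvections

`C` is any class of groups with the closure properties `ClosedE C`, all of which are known for the
class of the groups that satisfy the Farrell–Jones conjecture for A-theory with coefficients and finite
wreath products.

Let `H` be a group and `X` a set. If a group `Q` acts on `H * F(X)` extending an action on `H` and each
`q ∈ Q` has a positive power which maps each letter `x` to `u x v` with `u`, `v` in the subgroup
generated by `H` and smaller letters (in a strict partial order of `X` depending on `q`), then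
`(H * F(X)) ⋊ Q` is in `C` if and only if `H ⋊ Q` is.
-/

set_option autoImplicit false

namespace Pool.Agent.Results.MP_63c928_gt.TransvectionActions

open Pool.Agent.Y110.FJ Pool.Agent.X176.FJ

/-- the automorphisms of `H * F(X)` -/
abbrev AutHF (H X : Type) [Group H] : Type := MulAut (HF H X)

/-- the semidirect product of `H * F(X)` and `Q` -/
abbrev SD (H X Q : Type) [Group H] [Group Q] (φ : Q →* AutHF H X) : Type := HF H X ⋊[φ] Q

/-- the semidirect product of `H` and `Q` -/
abbrev SH (H Q : Type) [Group H] [Group Q] (ψ : Q →* MulAut H) : Type := H ⋊[ψ] Q

theorem result (C : ∀ (G : Type) [Group G], Prop) (hC : ClosedE C) (H X Q : Type) [Group H]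
    [Group Q] (φ : Q →* AutHF H X) :
    (∀ ψ : Q →* MulAut H, ExtendsAct ψ φ → LetTri φ → (C (SD H X Q φ) ↔ C (SH H Q ψ))) ∧
    (LetTriC C φ → (C (SD H X Q φ) ↔ C Q)) :=
  ⟨fun ψ hext h => semi_let hC ψ φ hext h, fun h => semi_letC hC φ h⟩

end Pool.Agent.Results.MP_63c928_gt.TransvectionActions
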