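import Pool.Agent.X176.FJ.Tri

/-!
# Triangular actions on free products

`C` is any class of groups with the closure properties `ClosedE C`, all of which are known for the
class of the groups that satisfy the Farrell–Jones conjecture for A-theory with coefficients and finite
wreath products.

Let `N` be the free product of a family of groups `G i`. An automorphism of `N` is triangular if there
is a strict (partial) order of the indices (depending on the automorphism, not necessarily
well-founded) such that every factor `G i` is mapped to itself and then conjugated by an element of the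
subgroup generated by the factors `G j` with `j < i`. Examples are partial conjugations and the
unipotent elements of the Fouxe-Rabinovitch groups (symmetric automorphisms of free products); the
mapping tori are iterated amalgamated products over infinite cyclic groups which are not malnormal.

If a group `Q` in `C` acts on `N` such that every element of `Q` has a positive power which acts as a
triangular automorphism, then the semidirect product is in `C`.
-/

set_option autoImplicit false

namespace Pool.Agent.Results.MP_63c928_gt.TriangularActions

open Pool.Agent.Y110.FJ Pool.Agent.X176.FJ Monoid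

/-- triangular automorphisms of a free product: for a strict order `r` of the indices, `G i` is mapped to
itself by an automorphism `τ` of finite order modulo inner ones and then conjugated by an element of the
subgroup `lowR r i` generated by the factors `G j`, `j < i` -/
def IsTriangular {ι : Type} {G : ι → Type} [∀ i, Group (G i)] (σ : MulAut (CoprodI G)) : Prop :=
  ∃ r : ι → ι → Prop, IsStrictOrder ι r ∧ ∀ i, ∃ (w : CoprodI G) (τ : MulAut (G i)),
    w ∈ lowR r i ∧ (∃ (k : ℕ) (n : G i), 0 < k ∧ τ ^ k = MulAut.conj n) ∧
    ∀ g : G i, σ (CoprodI.of g) = w * CoprodI.of (τ g) * w⁻¹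

/-- the automorphisms of the free product of the groups `G i` -/
abbrev AutFP {ι : Type} (G : ι → Type) [∀ i, Group (G i)] : Type := MulAut (CoprodI G)

/-- the semidirect product of the free product of the groups `G i` and `Q` with the action `φ` -/
abbrev SD {ι : Type} (G : ι → Type) [∀ i, Group (G i)] (Q : Type) [Group Q] (φ : Q →* AutFP G) : Type :=
  CoprodI G ⋊[φ] Q

/-- every element has a positive power which acts as a triangular automorphism -/
def Tri {ι : Type} (G : ι → Type) [∀ i, Group (G i)] (Q : Type) [Group Q] (φ : Q →* AutFP G) : Prop :=
  ∀ q : Q, ∃ m : ℕ, 0 < m ∧ IsTriangular ((φ q) ^ m)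

/-- the more general condition: the automorphisms `τ` of the factors in the definition of a triangular
automorphism are arbitrary, with semidirect product `G i ⋊ ℤ` in the class `C` -/
def TriC (C : ∀ (G : Type) [Group G], Prop) {ι : Type} (G : ι → Type) [∀ i, Group (G i)]
    (Q : Type) [Group Q] (φ : Q →* AutFP G) : Prop :=
  ∀ q : Q, ∃ m : ℕ, 0 < m ∧ IsTri C ((φ q) ^ m)

/-- **Semidirect products of free products with triangular actions.** The second part allows arbitrary
automorphisms `τ` of the factors for which the semidirect product with `ℤ` is in the class. -/
theorem result (C : ∀ (G : Type) [Group G], Prop) (hC : ClosedE C) (ι : Type) (G : ι → Type)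
    [∀ i, Group (G i)] (Q : Type) [Group Q] (φ : Q →* AutFP G) :
    (Tri G Q φ → (C (SD G Q φ) ↔ C Q ∧ ∀ i, C (G i))) ∧ (C Q → TriC C G Q φ → C (SD G Q φ)) := by
  refine ⟨fun h => ⟨fun hN => ⟨?_, fun i => ?_⟩, fun hQG => ?_⟩, fun hQ h => semi_tri hC hQ φ h⟩
  · exact hC.base.of_injective _ _ (SemidirectProduct.inr : Q →* CoprodI G ⋊[φ] Q)
      SemidirectProduct.inr_injective hN
  · exact hC.base.of_injective _ _
      ((SemidirectProduct.inl : CoprodI G →* CoprodI G ⋊[φ] Q).comp (CoprodI.of (M := G) (i := i)))
      (SemidirectProduct.inl_injective.comp (CoprodI.of_injective i)) hN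
  · refine semi_tri hC hQG.1 φ fun q => ?_
    obtain ⟨m, hm, r, hr, hd⟩ := h q
    refine ⟨m, hm, r, hr, fun i => ?_⟩
    obtain ⟨w, τ, hw, ⟨k, n, hk, hkn⟩, hσ⟩ := hd i
    exact ⟨w, τ, hw, c_torsion hC.base (hQG.2 i) τ k hk n hkn, hσ⟩

end Pool.Agent.Results.MP_63c928_gt.TriangularActions
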